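import Pool.Agent.H5.BoseTwo

/-!
Negative answer to Q1: for `q = 2` the assertion fails for every `h ≥ 5`.
-/

namespace Pool.Agent.Results.MP_50e481_nt.BoseFails

open Pool.Agent.H5.BoseSinger

/-- For `q = 2` and every `h ≥ 5` there are admissible `b, e` whose Bose sets are affinely
equivalent although `b` and `e` are not related by the equivalence relation generated by
(i), (ii), (iii). -/
theorem result (h : ℕ) (hh : 5 ≤ h) : ¬ BoseAssertion 2 h :=
  bose_two_main h hh

end Pool.Agent.Results.MP_50e481_nt.BoseFails
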