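import Pool.Agent.H5.BoseThree

/-!
Negative answer to Q1 with `q = 3`, `h = 6`.
-/

namespace Pool.Agent.Results.MP_50e481_nt.BoseFailsThree

open Pool.Agent.H5.BoseSinger

/-- For `q = 3` and `h = 6` there are admissible `b, e` whose Bose sets are affinely
equivalent although `b` and `e` are not related by the equivalence relation generated by
(i), (ii), (iii). -/
theorem result : ¬ BoseAssertion 3 6 :=
  bose_three_main

end Pool.Agent.Results.MP_50e481_nt.BoseFailsThree
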