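import Pool.Agent.H5.SingerTwo

/-!
Negative answer to Q2: the assertion for Singer sets fails for `q = 2`, `h = 9`.
-/

namespace Pool.Agent.Results.MP_50e481_nt.SingerFails

open Pool.Agent.H5.BoseSinger

/-- For `q = 2` and `h = 9` there are admissible `b, e` whose Singer sets are affinely
equivalent although `b` and `e` are not related by the equivalence relation generated by
(iv), (v), (vi), (vii). -/
theorem result : ¬ SingerAssertion 2 9 :=
  singer_two_main

end Pool.Agent.Results.MP_50e481_nt.SingerFails
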